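import Pool.Agent.h888.WC.Asm

/-!
# Compact groups whose `G_δ`-dense subgroups are projectively `w`-compact are metrizable

Let `G` be a compact Hausdorff group, not necessarily abelian. If every `G_δ`-dense subgroup of `G`
is projectively `w`-compact, then `G` is metrizable (in ZFC). This is a positive answer to Q1.

Idea of the proof. Let `G` be compact and not metrizable.
1. By the Peter-Weyl theorem the continuous homomorphisms of `G` to unitary groups separate the
   points, and the closed subgroups of a unitary group satisfy the descending chain condition. A
   maximality argument, repeated `ω` times, gives a closed normal subgroup `N` with metrizable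
   quotient and uncountably many representations `φ i` of `G` that are independent over `N`: the
   map `N → ∏ φ i (N)` is onto and no `φ i (N)` is trivial.
2. A continuous map of the Cantor set onto `G / N` is lifted continuously to all `φ i (G)` at once,
   and generic continuous functions from the Cantor set to the groups `φ i (N)` are built.
3. This gives a `G_δ`-dense subgroup `D` of the image of `G` in `G / N × ∏ φ i (G)` such that the
   coordinates of the elements of `D` are, up to countably many of them, given by continuous
   functions on a second countable space of parameters, and such that an element of `D` with only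
   countably many non-trivial coordinates is trivial. A compactness argument shows that all compact
   subsets of `D` are metrizable, while `D` is not.
4. The preimage of `D` in `G` is `G_δ`-dense and is mapped onto `D`, which is not `w`-compact.
-/

set_option autoImplicit false

namespace Pool.Agent.Results.MP_820cde_gt.MetrizationOfCompactGroups

open TopologicalSpace

universe u

/-- The weight of a space: the least cardinality of a base. -/
noncomputable def weight (X : Type u) [TopologicalSpace X] : Cardinal.{u} :=
  sInf {κ : Cardinal.{u} | ∃ B : Set (Set X), IsTopologicalBasis B ∧ Cardinal.mk B = κ}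

/-- `X` is `w`-compact if some compact subset of `X` has the same weight as `X`. -/
def WCompact (X : Type u) [TopologicalSpace X] : Prop :=
  ∃ C : Set X, IsCompact C ∧ weight C = weight X

/-- A topological group is projectively `w`-compact if each of its continuous homomorphic Hausdorff
images is `w`-compact. -/
def ProjectivelyWCompact (D : Type u) [Group D] [TopologicalSpace D] : Prop :=
  ∀ (H : Type u) [Group H] [TopologicalSpace H] [IsTopologicalGroup H] [T2Space H] (f : D →* H),
    Continuous f → Function.Surjective f → WCompact H

/-- A subgroup is `G_δ`-dense if it meets every non-empty `G_δ` set. -/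
def GDeltaDense {G : Type u} [Group G] [TopologicalSpace G] (D : Subgroup G) : Prop :=
  ∀ B : Set G, IsGδ B → B.Nonempty → ((D : Set G) ∩ B).Nonempty

theorem exists_basis (X : Type u) [TopologicalSpace X] :
    ∃ B : Set (Set X), IsTopologicalBasis B ∧ Cardinal.mk B = weight X :=
  csInf_mem (s := {κ : Cardinal.{u} | ∃ B : Set (Set X), IsTopologicalBasis B ∧ Cardinal.mk B = κ})
    ⟨_, {U : Set X | IsOpen U}, isTopologicalBasis_opens, rfl⟩

theorem secondCountable_iff (X : Type u) [TopologicalSpace X] :
    SecondCountableTopology X ↔ weight X ≤ Cardinal.aleph0 := by
  constructor
  · intro _
    have h : weight X ≤ Cardinal.mk (countableBasis X) :=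
      csInf_le' (s := {κ : Cardinal.{u} | ∃ B : Set (Set X), IsTopologicalBasis B ∧
        Cardinal.mk B = κ}) ⟨countableBasis X, isBasis_countableBasis X, rfl⟩
    exact h.trans (Cardinal.le_aleph0_iff_set_countable.2 (countable_countableBasis X))
  · intro h
    obtain ⟨B, hB, hBw⟩ := exists_basis X
    rw [← hBw, Cardinal.le_aleph0_iff_set_countable] at h
    exact hB.secondCountableTopology h

/-- Every compact Hausdorff group all of whose `G_δ`-dense subgroups are projectively `w`-compact is
metrizable. -/
theorem result : ∀ (G : Type u) [Group G] [TopologicalSpace G] [IsTopologicalGroup G]
    [CompactSpace G] [T2Space G],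
    (∀ D : Subgroup G, GDeltaDense D → ProjectivelyWCompact D) → MetrizableSpace G := by
  intro G _ _ _ _ _ hG
  by_cases hsc : SecondCountableTopology G
  · infer_instance
  exfalso
  obtain ⟨D, hD, H, _, _, _, _, f, hf, hfs, hH, hC⟩ := Pool.Agent.h888.WC.main_thm G hsc
  obtain ⟨C, hCc, hCw⟩ := hG D hD H f hf hfs
  apply hH
  rw [secondCountable_iff, ← hCw, ← secondCountable_iff]
  exact hC C hCc

end Pool.Agent.Results.MP_820cde_gt.MetrizationOfCompactGroups
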